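import Mathlib
import Pool.Agent.Helper47.CentrDefs
import Pool.Agent.Helper47.CentrMain

/-!
Problem MP_96d1d5_an, Q1: there is a closed manifold `M` (the 3-torus) and a transitive `C^∞`
diffeomorphism `f` of `M` whose centralizer is not a central extension of a Lie group.
-/

namespace Pool.Agent.Results.MP_96d1d5_an.TransitiveNotCentral

open scoped Manifold ContDiff
open Pool.Agent.Helper47.Centr

/-- There are a closed connected smooth manifold `M` and a transitive `f` in `Diff^∞(M)` whose
centralizer, with the `C^∞` topology, is not a central extension of a Lie group. -/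
theorem result.{v, w} : ∃ (E : Type) (_ : NormedAddCommGroup E) (_ : NormedSpace ℝ E)
    (_ : FiniteDimensional ℝ E) (M : Type) (_ : TopologicalSpace M) (_ : ChartedSpace E M)
    (_ : IsManifold 𝓘(ℝ, E) ∞ M) (_ : CompactSpace M) (_ : T2Space M)
    (_ : SecondCountableTopology M) (_ : ConnectedSpace M) (f : diffGroup E M),
    IsTransitive f ∧ ¬ IsCentralExtensionOfLieGroup.{0, v, w} (centralizer f) :=
  centr_main

end Pool.Agent.Results.MP_96d1d5_an.TransitiveNotCentral
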